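import Pool.Agent.REV.StmtsP3

/-!
# Squad REV, module HRA: `RA` away from the pole
-/

namespace Pool.Agent.REV.H81

open Set MeasureTheory Filter
open scoped Topology

set_option autoImplicit false

/-- The extension of `f` from `[0,1]`. -/
noncomputable def ext (f : ℝ → ℝ) (t : ℝ) : ℝ := f (max 0 (min t 1))

lemma clamp_mem (t : ℝ) : max 0 (min t 1) ∈ Icc (0 : ℝ) 1 :=
  ⟨le_max_left _ _, max_le zero_le_one (min_le_right _ _)⟩

lemma ext_cont {f : ℝ → ℝ} (hf : ContinuousOn f (Icc 0 1)) : Continuous (ext f) := by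
  unfold ext
  exact hf.comp_continuous (by fun_prop) clamp_mem

lemma ext_eq {f : ℝ → ℝ} {t : ℝ} (h0 : 0 ≤ t) (h1 : t ≤ 1) : ext f t = f t := by
  unfold ext
  rw [min_eq_left h1, max_eq_right h0]

lemma RA_ext (f : ℝ → ℝ) {c : ℝ} (h0 : 0 ≤ c) (h1 : c ≤ 1) : RA 3 (ext f) c = RA 3 f c := by
  unfold RA
  apply intervalIntegral.integral_congr
  intro r hr
  rw [uIcc_of_le zero_le_one] at hr
  simp only
  rw [ext_eq (mul_nonneg hr.1 h0) (mul_le_one₀ hr.2 h0 h1)]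

lemma int1 : IntervalIntegrable (fun r : ℝ => (1 - r) ^ (-(1 / 2) : ℝ)) volume 0 1 := by
  have h := ((intervalIntegral.intervalIntegrable_rpow' (a := 0) (b := 1)
    (by norm_num : (-1 : ℝ) < -(1 / 2))).comp_sub_left 1).symm
  simpa using h

lemma wt_le {r : ℝ} (h0 : 0 < r) (h1 : r ≤ 1) :
    r ^ 2 * (1 - r ^ 2) ^ ((((3 : ℕ) : ℝ) - 4) / 2) ≤ (1 - r) ^ (-(1 / 2) : ℝ) := by
  have he : (((3 : ℕ) : ℝ) - 4) / 2 = -(1 / 2) := by push_cast; norm_num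
  rw [he]
  rcases h1.lt_or_eq with h | h
  · have h2 : 0 < 1 - r := by linarith
    have h3 : 1 - r ≤ 1 - r ^ 2 := by nlinarith
    have h4 : (1 - r ^ 2) ^ (-(1 / 2) : ℝ) ≤ (1 - r) ^ (-(1 / 2) : ℝ) :=
      Real.rpow_le_rpow_of_nonpos h2 h3 (by norm_num)
    have h5 : 0 ≤ (1 - r ^ 2) ^ (-(1 / 2) : ℝ) := Real.rpow_nonneg (by nlinarith) _
    have h6 : r ^ 2 ≤ 1 := by nlinarith
    nlinarith
  · subst h
    simp

lemma RB_le {M : ℝ} {g : ℝ → ℝ} (hg : ∀ t, |g t| ≤ M) (c : ℝ) :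
    ‖RB 3 g c‖ ≤ ∫ r in (0 : ℝ)..1, (1 - r) ^ (-(1 / 2) : ℝ) * M := by
  unfold RB
  refine intervalIntegral.norm_integral_le_of_norm_le zero_le_one ?_ (int1.mul_const M)
  refine Filter.Eventually.of_forall fun r hr => ?_
  rw [norm_mul, norm_mul]
  have h1 : 0 ≤ (1 - r ^ 2) ^ ((((3 : ℕ) : ℝ) - 4) / 2) :=
    Real.rpow_nonneg (by nlinarith [hr.1, hr.2]) _
  have h2 := wt_le hr.1 hr.2
  rw [Real.norm_of_nonneg (sq_nonneg r), Real.norm_of_nonneg h1]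
  exact mul_le_mul h2 (hg _) (norm_nonneg _) (le_trans (mul_nonneg (sq_nonneg r) h1) h2)

lemma RA_le {M : ℝ} {g : ℝ → ℝ} (hM : 0 ≤ M) (hg : ∀ t, |g t| ≤ M) (c : ℝ) :
    |RA 3 g c| ≤ M := by
  unfold RA
  have h : ‖∫ r in (0 : ℝ)..1, (1 - r ^ 2) ^ ((((3 : ℕ) : ℝ) - 2) / 2) * g (r * c)‖ ≤
      M * |1 - 0| := by
    apply intervalIntegral.norm_integral_le_of_norm_le_const
    intro r hr
    rw [uIoc_of_le zero_le_one] at hr
    rw [norm_mul]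
    have h0 : 0 ≤ 1 - r ^ 2 := by nlinarith [hr.1, hr.2]
    have h1 : 0 ≤ (1 - r ^ 2) ^ ((((3 : ℕ) : ℝ) - 2) / 2) := Real.rpow_nonneg h0 _
    have h2 : (1 - r ^ 2) ^ ((((3 : ℕ) : ℝ) - 2) / 2) ≤ 1 :=
      Real.rpow_le_one h0 (by nlinarith [sq_nonneg r]) (by push_cast; norm_num)
    rw [Real.norm_of_nonneg h1]
    have h3 : ‖g (r * c)‖ ≤ M := hg _
    nlinarith [norm_nonneg (g (r * c))]
  simpa using h

/-- HRA. -/
theorem hra (yd : Yd3Stmt) : HraStmt := by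
  intro M f hf hM
  have hM0 : 0 ≤ M := le_trans (abs_nonneg _) (hM 0 (by simp))
  have hgM : ∀ t, |ext f t| ≤ M := fun t => hM _ (clamp_mem t)
  have hgc : Continuous (ext f) := ext_cont hf
  obtain ⟨D, hD⟩ : ∃ D : ℝ, D = ∫ r in (0 : ℝ)..1, (1 - r) ^ (-(1 / 2) : ℝ) * M := ⟨_, rfl⟩
  have hB : ∀ c, ‖RB 3 (ext f) c‖ ≤ D := fun c => by rw [hD]; exact RB_le hgM c
  have hD0 : 0 ≤ D := le_trans (norm_nonneg _) (hB 0)
  refine ⟨2 * (D + M), by linarith, ?_⟩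
  intro c c' hc hc' h1 h1' h2 h2'
  rw [← RA_ext f hc h2, ← RA_ext f hc' h2']
  have c1 : 1 / 2 ≤ c := by nlinarith
  have c1' : 1 / 2 ≤ c' := by nlinarith
  have mv : ‖c * RA 3 (ext f) c - c' * RA 3 (ext f) c'‖ ≤ D * ‖c - c'‖ := by
    refine Convex.norm_image_sub_le_of_norm_hasDerivWithin_le
      (f := fun u => u * RA 3 (ext f) u) (f' := fun u => RB 3 (ext f) u) (s := Ioi (0 : ℝ))
      ?_ ?_ (convex_Ioi 0) ?_ ?_
    · intro u hu
      exact (yd (ext f) u hgc.measurable ⟨M, hgM⟩ hu).hasDerivWithinAt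
    · intro u hu
      exact hB u
    · show 0 < c'
      linarith
    · show 0 < c
      linarith
  rw [Real.norm_eq_abs, Real.norm_eq_abs] at mv
  have ra := RA_le hM0 hgM c'
  obtain ⟨a, ha⟩ : ∃ a, a = RA 3 (ext f) c := ⟨_, rfl⟩
  obtain ⟨a', ha'⟩ : ∃ a', a' = RA 3 (ext f) c' := ⟨_, rfl⟩
  rw [← ha, ← ha'] at mv ⊢
  rw [← ha'] at ra
  have e1 : c * (a - a') = (c * a - c' * a') - (c - c') * a' := by ring
  have e2 : c * |a - a'| ≤ D * |c - c'| + |c - c'| * M := by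
    calc c * |a - a'| = |c * (a - a')| := by rw [abs_mul, abs_of_nonneg hc]
      _ = |(c * a - c' * a') - (c - c') * a'| := by rw [e1]
      _ ≤ |c * a - c' * a'| + |(c - c') * a'| := abs_sub _ _
      _ ≤ D * |c - c'| + |c - c'| * M := by
        rw [abs_mul (c - c')]
        exact add_le_add mv (mul_le_mul_of_nonneg_left ra (abs_nonneg _))
  have e3 : |c - c'| ≤ |c ^ 2 - c' ^ 2| := by
    have h3 : c ^ 2 - c' ^ 2 = (c - c') * (c + c') := by ring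
    rw [h3, abs_mul, abs_of_nonneg (by linarith : 0 ≤ c + c')]
    nlinarith [abs_nonneg (c - c')]
  have e4 : 1 / 2 * |a - a'| ≤ c * |a - a'| := mul_le_mul_of_nonneg_right c1 (abs_nonneg _)
  have e5 : (D + M) * |c - c'| ≤ (D + M) * |c ^ 2 - c' ^ 2| :=
    mul_le_mul_of_nonneg_left e3 (by linarith)
  nlinarith

end Pool.Agent.REV.H81
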